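import Pool.Agent.Godefroy.Space

set_option autoImplicit false

namespace Pool.Agent.Godefroy

open Set

namespace RhoSystem

variable {Ω : Type} [LinearOrder Ω] {R : RhoSystem Ω}

/-- The coordinate function `x ↦ 1_{γ ∈ x}`. -/
noncomputable def pi (R : RhoSystem Ω) (γ : Ω) : C(R.K, ℝ) where
  toFun x := (fun b : Bool => if b = true then (1 : ℝ) else 0) (x.1 γ)
  continuous_toFun :=
    (continuous_of_discreteTopology (f := fun b : Bool => if b = true then (1 : ℝ) else 0)).comp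
      ((continuous_apply γ).comp continuous_subtype_val)

open Classical in
theorem pi_apply (γ : Ω) (x : R.K) : R.pi γ x = if γ ∈ x.set then 1 else 0 := by
  by_cases h : γ ∈ x.set
  · rw [if_pos h]; exact if_pos h
  · rw [if_neg h]; exact if_neg h

/-- `G` is an initial segment of `A`. -/
def Init (G : Finset Ω) (A : Set Ω) : Prop :=
  (∀ ξ ∈ G, ξ ∈ A) ∧ ∀ ξ b, ξ ∈ A → b ∈ G → ξ ≤ b → ξ ∈ G

open Classical in
theorem exists_u (G : Finset Ω) :
    ∃ u : C(R.K, ℝ), ∀ x : R.K, u x = if Init G x.set then 1 else 0 := by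
  have hprod : ∀ x : R.K, (∏ ξ ∈ G, R.pi ξ) x = if ∀ ξ ∈ G, ξ ∈ x.set then 1 else 0 := by
    intro x
    rw [ContinuousMap.coe_prod, Finset.prod_apply]
    simp only [pi_apply]
    rw [Finset.prod_boole]
  rcases G.eq_empty_or_nonempty with rfl | hne
  · refine ⟨1, fun x => ?_⟩
    have : Init ∅ x.set := ⟨by simp, by simp⟩
    simp [this]
  · set b := G.max' hne with hb
    have hbG : b ∈ G := G.max'_mem hne
    have hle : ∀ c ∈ G, c ≤ b := fun c hc => G.le_max' c hc
    by_cases hP : ∀ m, R.F b m ⊆ G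
    · refine ⟨∏ ξ ∈ G, R.pi ξ, fun x => ?_⟩
      rw [hprod x]
      have : Init G x.set ↔ ∀ ξ ∈ G, ξ ∈ x.set := by
        refine ⟨fun h => h.1, fun h => ⟨h, fun ξ c _ hc hξc => ?_⟩⟩
        obtain ⟨m, hm⟩ := R.exhaust (hξc.trans (hle c hc))
        exact hP m hm
      simp only [this]
    · push Not at hP
      have hspec := Nat.find_spec hP
      obtain ⟨η, hηF, hηG⟩ := Finset.not_subset.1 hspec
      refine ⟨(∏ ξ ∈ G, R.pi ξ) * (1 - R.pi η), fun x => ?_⟩
      have h1 : ((∏ ξ ∈ G, R.pi ξ) * (1 - R.pi η)) x =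
          (∏ ξ ∈ G, R.pi ξ) x * (1 - R.pi η x) := by
        simp
      rw [h1, hprod x, pi_apply]
      have hη : Init G x.set ↔ (∀ ξ ∈ G, ξ ∈ x.set) ∧ η ∉ x.set := by
        constructor
        · intro h
          exact ⟨h.1, fun hη => hηG (h.2 η b hη hbG (R.le_of_mem hηF))⟩
        · rintro ⟨h, hη⟩
          refine ⟨h, fun ξ c hξ hc hξc => ?_⟩
          rcases x.inK b ξ η (h b hbG) hξ (hξc.trans (hle c hc)) (R.le_of_mem hηF) with h2 | h2
          · exact absurd h2 hη
          · obtain ⟨n, hn1, hn2⟩ := h2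
            have hlt : n < Nat.find hP := by
              by_contra hge
              exact hn2 (R.mono b (by omega) hηF)
            have := Nat.find_min hP hlt
            exact (not_not.1 this) hn1
      by_cases h2 : ∀ ξ ∈ G, ξ ∈ x.set
      · by_cases h3 : η ∈ x.set
        · have : ¬ Init G x.set := fun h => (hη.1 h).2 h3
          simp [h3, this]
        · have : Init G x.set := hη.2 ⟨h2, h3⟩
          rw [if_pos h2, if_neg h3, if_pos this]; norm_num
      · have : ¬ Init G x.set := fun h => h2 h.1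
        rw [if_neg h2, if_neg this]; simp

/-- The function `1_{V_G}`. -/
noncomputable def U (R : RhoSystem Ω) (G : Finset Ω) : C(R.K, ℝ) :=
  Classical.choose (exists_u (R := R) G)

open Classical in
theorem U_apply (G : Finset Ω) (x : R.K) : R.U G x = if Init G x.set then 1 else 0 :=
  Classical.choose_spec (exists_u (R := R) G) x

theorem U_empty : R.U ∅ = 1 := by
  ext x
  have : Init ∅ x.set := ⟨by simp, by simp⟩
  rw [U_apply, if_pos this]; rfl

theorem init_F_iff (γ : Ω) (n : ℕ) (A : Set Ω) :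
    Init (R.F γ n) A ↔ γ ∈ A ∧ (R.F γ n : Set Ω) = A ∩ Iic γ := by
  constructor
  · intro h
    refine ⟨h.1 γ (R.self_mem γ n), ?_⟩
    ext ξ
    constructor
    · intro hξ
      exact ⟨h.1 ξ hξ, R.le_of_mem hξ⟩
    · rintro ⟨h1, h2⟩
      exact h.2 ξ γ h1 (R.self_mem γ n) h2
  · rintro ⟨h1, h2⟩
    refine ⟨fun ξ hξ => ?_, fun ξ b hξ hb hξb => ?_⟩
    · have : ξ ∈ (R.F γ n : Set Ω) := hξ
      rw [h2] at this
      exact this.1
    · have : ξ ∈ A ∩ Iic γ := ⟨hξ, hξb.trans (R.le_of_mem hb)⟩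
      rw [← h2] at this
      exact this

open Classical in
theorem sum_U (γ : Ω) (𝒢 : Finset (Finset Ω)) (h𝒢 : ∀ G ∈ 𝒢, ∃ n, G = R.F γ n) (x : R.K) :
    (∑ G ∈ 𝒢, R.U G) x =
      if γ ∈ x.set ∧ ∃ G ∈ 𝒢, (G : Set Ω) = x.set ∩ Iic γ then 1 else 0 := by
  rw [ContinuousMap.coe_sum, Finset.sum_apply]
  simp only [U_apply]
  by_cases h : γ ∈ x.set ∧ ∃ G ∈ 𝒢, (G : Set Ω) = x.set ∩ Iic γ
  · rw [if_pos h]
    obtain ⟨hγ, G₀, hG₀, hG₀x⟩ := h
    rw [Finset.sum_eq_single G₀]
    · rw [if_pos]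
      obtain ⟨n, rfl⟩ := h𝒢 G₀ hG₀
      exact (init_F_iff γ n _).2 ⟨hγ, hG₀x⟩
    · intro G hG hne
      rw [if_neg]
      intro hinit
      obtain ⟨n, rfl⟩ := h𝒢 G hG
      have := ((init_F_iff γ n _).1 hinit).2
      apply hne
      apply Finset.coe_injective
      rw [this, hG₀x]
    · intro hG; exact absurd hG₀ hG
  · rw [if_neg h]
    apply Finset.sum_eq_zero
    intro G hG
    rw [if_neg]
    intro hinit
    obtain ⟨n, rfl⟩ := h𝒢 G hG
    have := (init_F_iff γ n _).1 hinit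
    exact h ⟨this.1, _, hG, this.2⟩

/-- The index set of the Markushevich basis. -/
def Idx (R : RhoSystem Ω) : Type :=
  {G : Finset Ω // R.InK (G : Set Ω)} ⊕ {γ : Ω // (Iio γ).Infinite}

/-- The vectors of the Markushevich basis. -/
noncomputable def vec (R : RhoSystem Ω) : R.Idx → C(R.K, ℝ)
  | Sum.inl G => R.U G.1
  | Sum.inr γ => R.pi γ.1

/-- The linear span of the vectors of the basis. -/
noncomputable def S (R : RhoSystem Ω) : Submodule ℝ C(R.K, ℝ) := Submodule.span ℝ (range R.vec)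

theorem U_mem (G : Finset Ω) (h : R.InK (G : Set Ω)) : R.U G ∈ R.S :=
  Submodule.subset_span ⟨Sum.inl ⟨G, h⟩, rfl⟩

theorem pi_mem_of_infinite (γ : Ω) (h : (Iio γ).Infinite) : R.pi γ ∈ R.S :=
  Submodule.subset_span ⟨Sum.inr ⟨γ, h⟩, rfl⟩

theorem inK_empty : R.InK ((∅ : Finset Ω) : Set Ω) := by
  intro b ξ η hb
  simp at hb

theorem one_mem : (1 : C(R.K, ℝ)) ∈ R.S := by
  rw [← U_empty]
  exact U_mem ∅ inK_empty

theorem sum_mem (γ : Ω) (𝒢 : Finset (Finset Ω)) (h𝒢 : ∀ G ∈ 𝒢, ∃ n, G = R.F γ n) :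
    ∑ G ∈ 𝒢, R.U G ∈ R.S := by
  apply Submodule.sum_mem
  intro G hG
  obtain ⟨n, rfl⟩ := h𝒢 G hG
  exact U_mem _ (inK_F γ n)

/-- The trace of a point of `K` on `[0,γ]`, in set form. -/
theorem trace_cases (x : R.K) {γ : Ω} (hγ : γ ∈ x.set) :
    (∃ n, (R.F γ n : Set Ω) = x.set ∩ Iic γ) ∨ x.set ∩ Iic γ = Iic γ := by
  rcases trace x.inK hγ with ⟨n, hn⟩ | h
  · left
    refine ⟨n, ?_⟩
    ext ξ
    exact hn ξ
  · right
    ext ξ
    exact ⟨fun h1 => h1.2, fun h1 => ⟨h ξ h1, h1⟩⟩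

theorem pi_mem (γ : Ω) : R.pi γ ∈ R.S := by
  classical
  by_cases hinf : (Iio γ).Infinite
  · exact pi_mem_of_infinite γ hinf
  · have hfin : (Iic γ).Finite := by
      rw [not_infinite] at hinf
      rw [← Iio_insert]
      exact hinf.insert γ
    -- `F γ n = [0,γ]` for large `n`
    have hex : ∃ N, ∀ ξ, ξ ≤ γ → ξ ∈ R.F γ N := by
      have h1 : ∀ ξ : Ω, ∃ n, ξ ≤ γ → ξ ∈ R.F γ n := by
        intro ξ
        by_cases h : ξ ≤ γ
        · obtain ⟨n, hn⟩ := R.exhaust h
          exact ⟨n, fun _ => hn⟩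
        · exact ⟨0, fun h' => absurd h' h⟩
      choose N hN using h1
      refine ⟨hfin.toFinset.sup N, fun ξ hξ => ?_⟩
      exact R.mono γ (Finset.le_sup (f := N) (hfin.mem_toFinset.2 hξ)) (hN ξ hξ)
    obtain ⟨N, hN⟩ := hex
    have hFN : (R.F γ N : Set Ω) = Iic γ := by
      ext ξ
      exact ⟨fun h => R.le_of_mem h, fun h => hN ξ h⟩
    let 𝒢 : Finset (Finset Ω) := (Finset.range (N + 1)).image (R.F γ)
    have h𝒢 : ∀ G ∈ 𝒢, ∃ n, G = R.F γ n := by
      intro G hG
      obtain ⟨n, -, hn⟩ := Finset.mem_image.1 hG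
      exact ⟨n, hn.symm⟩
    have hEq : R.pi γ = ∑ G ∈ 𝒢, R.U G := by
      ext x
      rw [sum_U γ 𝒢 h𝒢 x, pi_apply]
      by_cases hγ : γ ∈ x.set
      · rw [if_pos hγ, if_pos]
        refine ⟨hγ, ?_⟩
        rcases trace_cases x hγ with ⟨n, hn⟩ | h
        · by_cases hnN : n ≤ N
          · exact ⟨R.F γ n, Finset.mem_image_of_mem _ (by simp; omega), hn⟩
          · refine ⟨R.F γ N, Finset.mem_image_of_mem _ (by simp), ?_⟩
            rw [← hn]
            apply Subset.antisymm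
            · exact_mod_cast R.mono γ (by omega : N ≤ n)
            · intro ξ hξ
              exact hN ξ (R.le_of_mem hξ)
        · refine ⟨R.F γ N, Finset.mem_image_of_mem _ (by simp), ?_⟩
          rw [h, hFN]
      · rw [if_neg hγ, if_neg (fun h => hγ h.1)]
    rw [hEq]
    exact sum_mem γ 𝒢 h𝒢

open Classical in
/-- A function of the form `1[γ ∈ x ∧ Q (x ∩ [0,γ])]` is in the span, if the property `Q` is
stable along the sequence `F_n(γ) → [0,γ]`. -/
theorem mem_of_pred (γ : Ω) (Q : Set Ω → Prop) (N : ℕ)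
    (hQ : ∀ n, N ≤ n → (Q (R.F γ n : Set Ω) ↔ Q (Iic γ))) (g : C(R.K, ℝ))
    (hg : ∀ x : R.K, g x = if γ ∈ x.set ∧ Q (x.set ∩ Iic γ) then 1 else 0) : g ∈ R.S := by
  by_cases hQγ : Q (Iic γ)
  · let 𝒢 : Finset (Finset Ω) :=
      ((Finset.range N).image (R.F γ)).filter (fun G => ¬ Q (G : Set Ω))
    have h𝒢 : ∀ G ∈ 𝒢, ∃ n, G = R.F γ n := by
      intro G hG
      obtain ⟨n, -, hn⟩ := Finset.mem_image.1 (Finset.mem_filter.1 hG).1
      exact ⟨n, hn.symm⟩
    have hEq : g = R.pi γ - ∑ G ∈ 𝒢, R.U G := by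
      ext x
      rw [ContinuousMap.sub_apply, sum_U γ 𝒢 h𝒢 x, pi_apply, hg x]
      by_cases hγ : γ ∈ x.set
      · by_cases hQx : Q (x.set ∩ Iic γ)
        · rw [if_pos ⟨hγ, hQx⟩, if_pos hγ, if_neg]
          · norm_num
          · rintro ⟨-, G, hG, hGx⟩
            apply (Finset.mem_filter.1 hG).2
            rw [hGx]; exact hQx
        · rw [if_neg (fun h => hQx h.2), if_pos hγ, if_pos]
          · norm_num
          · refine ⟨hγ, ?_⟩
            rcases trace_cases x hγ with ⟨n, hn⟩ | h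
            · refine ⟨R.F γ n, Finset.mem_filter.2 ⟨Finset.mem_image_of_mem _ ?_, ?_⟩, hn⟩
              · rw [Finset.mem_range]
                by_contra hlt
                apply hQx
                rw [← hn]
                exact (hQ n (by omega)).2 hQγ
              · rw [hn]; exact hQx
            · exfalso
              apply hQx
              rw [h]; exact hQγ
      · rw [if_neg (fun h => hγ h.1), if_neg hγ, if_neg (fun h => hγ h.1)]
        norm_num
    rw [hEq]
    exact Submodule.sub_mem _ (pi_mem γ) (sum_mem γ 𝒢 h𝒢)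
  · let 𝒢 : Finset (Finset Ω) :=
      ((Finset.range N).image (R.F γ)).filter (fun G => Q (G : Set Ω))
    have h𝒢 : ∀ G ∈ 𝒢, ∃ n, G = R.F γ n := by
      intro G hG
      obtain ⟨n, -, hn⟩ := Finset.mem_image.1 (Finset.mem_filter.1 hG).1
      exact ⟨n, hn.symm⟩
    have hEq : g = ∑ G ∈ 𝒢, R.U G := by
      ext x
      rw [sum_U γ 𝒢 h𝒢 x, hg x]
      by_cases hγ : γ ∈ x.set
      · by_cases hQx : Q (x.set ∩ Iic γ)
        · rw [if_pos ⟨hγ, hQx⟩, if_pos]
          refine ⟨hγ, ?_⟩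
          rcases trace_cases x hγ with ⟨n, hn⟩ | h
          · refine ⟨R.F γ n, Finset.mem_filter.2 ⟨Finset.mem_image_of_mem _ ?_, ?_⟩, hn⟩
            · rw [Finset.mem_range]
              by_contra hlt
              apply hQγ
              apply (hQ n (by omega)).1
              rw [hn]; exact hQx
            · rw [hn]; exact hQx
          · exfalso
            apply hQγ
            rw [← h]; exact hQx
        · rw [if_neg (fun h => hQx h.2), if_neg]
          rintro ⟨-, G, hG, hGx⟩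
          apply hQx
          rw [← hGx]
          exact (Finset.mem_filter.1 hG).2
      · rw [if_neg (fun h => hγ h.1), if_neg (fun h => hγ h.1)]
    rw [hEq]
    exact sum_mem γ 𝒢 h𝒢

theorem pi_mul_pi_of_lt {γ β : Ω} (h : γ < β) : R.pi γ * R.pi β ∈ R.S := by
  classical
  obtain ⟨N, hN⟩ := R.exhaust h.le
  refine mem_of_pred β (fun A => γ ∈ A) N ?_ _ ?_
  · intro n hn
    exact ⟨fun _ => h.le, fun _ => R.mono β hn hN⟩
  · intro x
    rw [ContinuousMap.mul_apply, pi_apply, pi_apply]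
    by_cases h1 : γ ∈ x.set <;> by_cases h2 : β ∈ x.set <;> simp [h1, h2, h.le]

theorem pi_mul_pi (γ β : Ω) : R.pi γ * R.pi β ∈ R.S := by
  classical
  rcases lt_trichotomy γ β with h | h | h
  · exact pi_mul_pi_of_lt h
  · subst h
    have : R.pi γ * R.pi γ = R.pi γ := by
      ext x
      rw [ContinuousMap.mul_apply, pi_apply]
      split_ifs <;> norm_num
    rw [this]
    exact pi_mem γ
  · rw [mul_comm]
    exact pi_mul_pi_of_lt h

theorem pi_mul_U (γ : Ω) (G : Finset Ω) (hG : R.InK (G : Set Ω)) : R.pi γ * R.U G ∈ R.S := by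
  classical
  by_cases hA : ∃ b ∈ G, γ ≤ b
  · obtain ⟨b, hb, hγb⟩ := hA
    by_cases hγ : γ ∈ G
    · have : R.pi γ * R.U G = R.U G := by
        ext x
        rw [ContinuousMap.mul_apply, pi_apply, U_apply]
        by_cases h : Init G x.set
        · rw [if_pos h, if_pos (h.1 γ hγ)]; norm_num
        · rw [if_neg h]; norm_num
      rw [this]
      exact U_mem G hG
    · have : R.pi γ * R.U G = 0 := by
        ext x
        rw [ContinuousMap.mul_apply, pi_apply, U_apply]
        by_cases h : Init G x.set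
        · have h2 : γ ∉ x.set := fun h2 => hγ (h.2 γ b h2 hb hγb)
          rw [if_neg h2]; simp
        · rw [if_neg h]; simp
      rw [this]
      exact Submodule.zero_mem _
  · push Not at hA
    have hInit : ∀ x : Set Ω, Init G x ↔ Init G (x ∩ Iic γ) := by
      intro x
      constructor
      · intro h
        exact ⟨fun ξ hξ => ⟨h.1 ξ hξ, (hA ξ hξ).le⟩, fun ξ b hξ hb hξb => h.2 ξ b hξ.1 hb hξb⟩
      · intro h
        exact ⟨fun ξ hξ => (h.1 ξ hξ).1, fun ξ b hξ hb hξb =>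
          h.2 ξ b ⟨hξ, hξb.trans (hA b hb).le⟩ hb hξb⟩
    by_cases hI : Init G (Iic γ)
    · -- choose `N` with `G ⊆ F γ n` for `n ≥ N`
      have hex : ∃ N, G ⊆ R.F γ N := by
        have h1 : ∀ ξ : Ω, ∃ n, ξ ∈ G → ξ ∈ R.F γ n := by
          intro ξ
          by_cases h : ξ ∈ G
          · obtain ⟨n, hn⟩ := R.exhaust (hA ξ h).le
            exact ⟨n, fun _ => hn⟩
          · exact ⟨0, fun h' => absurd h' h⟩
        choose N hN using h1
        refine ⟨G.sup N, fun ξ hξ => ?_⟩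
        exact R.mono γ (Finset.le_sup (f := N) hξ) (hN ξ hξ)
      obtain ⟨N, hN⟩ := hex
      refine mem_of_pred γ (Init G) N ?_ _ ?_
      · intro n hn
        refine ⟨fun _ => hI, fun _ => ⟨fun ξ hξ => R.mono γ hn (hN hξ), ?_⟩⟩
        intro ξ b hξ hb hξb
        exact hI.2 ξ b (R.le_of_mem hξ) hb hξb
      · intro x
        rw [ContinuousMap.mul_apply, pi_apply, U_apply]
        simp only [hInit x.set]
        by_cases h1 : γ ∈ x.set <;> by_cases h2 : Init G (x.set ∩ Iic γ) <;> simp [h1, h2]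
    · have hex : ∃ ξ b, ξ ≤ γ ∧ b ∈ G ∧ ξ ≤ b ∧ ξ ∉ G := by
        by_contra hcon
        push Not at hcon
        exact hI ⟨fun ξ hξ => (hA ξ hξ).le, fun ξ b hξ hb hξb => hcon ξ b hξ hb hξb⟩
      obtain ⟨ξ, b, hξγ, hb, hξb, hξG⟩ := hex
      obtain ⟨N, hN⟩ := R.exhaust hξγ
      refine mem_of_pred γ (Init G) N ?_ _ ?_
      · intro n hn
        refine ⟨fun h => ?_, fun h => absurd h hI⟩
        exact absurd (h.2 ξ b (R.mono γ hn hN) hb hξb) hξG
      · intro x
        rw [ContinuousMap.mul_apply, pi_apply, U_apply]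
        simp only [hInit x.set]
        by_cases h1 : γ ∈ x.set <;> by_cases h2 : Init G (x.set ∩ Iic γ) <;> simp [h1, h2]

theorem pi_mul_mem (γ : Ω) (f : C(R.K, ℝ)) (hf : f ∈ R.S) : R.pi γ * f ∈ R.S := by
  unfold S at hf
  induction hf using Submodule.span_induction with
  | mem f hf =>
    obtain ⟨i, rfl⟩ := hf
    rcases i with G | β
    · exact pi_mul_U γ G.1 G.2
    · exact pi_mul_pi γ β.1
  | zero => rw [mul_zero]; exact Submodule.zero_mem _
  | add f g _ _ h1 h2 => rw [mul_add]; exact Submodule.add_mem _ h1 h2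
  | smul a f _ h => rw [mul_smul_comm]; exact Submodule.smul_mem _ a h

theorem adjoin_le (f : C(R.K, ℝ)) (hf : f ∈ Algebra.adjoin ℝ (range R.pi)) : f ∈ R.S := by
  have key : ∀ s ∈ R.S, f * s ∈ R.S := by
    induction hf using Algebra.adjoin_induction with
    | mem x hx =>
      obtain ⟨γ, rfl⟩ := hx
      intro s hs
      exact pi_mul_mem γ s hs
    | algebraMap r =>
      intro s hs
      rw [← Algebra.smul_def]
      exact Submodule.smul_mem _ r hs
    | add x y _ _ hx hy =>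
      intro s hs
      rw [add_mul]
      exact Submodule.add_mem _ (hx s hs) (hy s hs)
    | mul x y _ _ hx hy =>
      intro s hs
      rw [mul_assoc]
      exact hx _ (hy s hs)
  simpa using key 1 one_mem

theorem separates : (Algebra.adjoin ℝ (range R.pi)).SeparatesPoints := by
  classical
  intro x y hxy
  have hne : x.set ≠ y.set := fun h => hxy (K.ext_set h)
  have : ∃ γ, ¬ (γ ∈ x.set ↔ γ ∈ y.set) := by
    by_contra hcon
    push Not at hcon
    exact hne (Set.ext hcon)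
  obtain ⟨γ, hγ⟩ := this
  refine ⟨R.pi γ, ⟨R.pi γ, Algebra.subset_adjoin ⟨γ, rfl⟩, rfl⟩, ?_⟩
  rw [pi_apply, pi_apply]
  by_cases h1 : γ ∈ x.set <;> by_cases h2 : γ ∈ y.set <;> simp_all

theorem dense_S : Dense (R.S : Set C(R.K, ℝ)) := by
  have h := ContinuousMap.subalgebra_topologicalClosure_eq_top_of_separatesPoints
    (Algebra.adjoin ℝ (range R.pi)) separates
  have h2 : Dense ((Algebra.adjoin ℝ (range R.pi) : Subalgebra ℝ C(R.K, ℝ)) : Set C(R.K, ℝ)) := by
    rw [dense_iff_closure_eq]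
    have := congrArg (fun A : Subalgebra ℝ C(R.K, ℝ) => (A : Set C(R.K, ℝ))) h
    simpa using this
  exact h2.mono fun f hf => adjoin_le f hf

end RhoSystem

end Pool.Agent.Godefroy
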