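import Pool.Agent.Godefroy.Basis

set_option autoImplicit false

namespace Pool.Agent.Godefroy

open Set

namespace RhoSystem

variable {Ω : Type} [LinearOrder Ω] {R : RhoSystem Ω}

/-- Evaluation at a point as a bounded linear functional. -/
noncomputable def ev (x : R.K) : C(R.K, ℝ) →L[ℝ] ℝ := ContinuousMap.evalCLM ℝ x

@[simp] theorem ev_apply (x : R.K) (f : C(R.K, ℝ)) : ev x f = f x := rfl

theorem norm_ev_le (x : R.K) : ‖ev x‖ ≤ 1 := by
  refine ContinuousLinearMap.opNorm_le_bound _ zero_le_one fun f => ?_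
  rw [one_mul]
  exact f.norm_coe_le_norm x

theorem inK_Iic (γ : Ω) : R.InK (Iic γ) := inK_lower (isLowerSet_Iic γ)

theorem inK_Iio (γ : Ω) : R.InK (Iio γ) := inK_lower (isLowerSet_Iio γ)

/-- The functional dual to `pi γ`. -/
noncomputable def psi (R : RhoSystem Ω) (γ : Ω) : C(R.K, ℝ) →L[ℝ] ℝ :=
  ev (R.pt (Iic γ) (inK_Iic γ)) - ev (R.pt (Iio γ) (inK_Iio γ))

theorem inK_erase {G : Finset Ω} (h : R.InK (G : Set Ω)) (hne : G.Nonempty) :
    R.InK ((G.erase (G.max' hne) : Finset Ω) : Set Ω) := by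
  have : ((G.erase (G.max' hne) : Finset Ω) : Set Ω) = (G : Set Ω) ∩ Iio (G.max' hne) := by
    ext ξ
    simp only [Finset.coe_erase, mem_sdiff, Finset.mem_coe, mem_singleton_iff, mem_inter_iff,
      mem_Iio]
    constructor
    · rintro ⟨h1, h2⟩
      exact ⟨h1, lt_of_le_of_ne (G.le_max' ξ h1) h2⟩
    · rintro ⟨h1, h2⟩
      exact ⟨h1, h2.ne⟩
  rw [this]
  exact inK_inter_lower h (isLowerSet_Iio _)

open Classical in
/-- The functional dual to `U G`. -/
noncomputable def phi (R : RhoSystem Ω) (G : Finset Ω) (h : R.InK (G : Set Ω)) :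
    C(R.K, ℝ) →L[ℝ] ℝ :=
  if hne : G.Nonempty then
    ev (R.pt G h) - ev (R.pt ((G.erase (G.max' hne) : Finset Ω) : Set Ω) (inK_erase h hne)) -
      (if (Iio (G.max' hne)).Infinite then R.psi (G.max' hne) else 0)
  else ev (R.pt G h)

/-- The functionals of the Markushevich basis. -/
noncomputable def fnl (R : RhoSystem Ω) : R.Idx → (C(R.K, ℝ) →L[ℝ] ℝ)
  | Sum.inl G => R.phi G.1 G.2
  | Sum.inr γ => R.psi γ.1

open Classical in
theorem psi_pi (γ β : Ω) : R.psi γ (R.pi β) = if β = γ then 1 else 0 := by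
  simp only [psi, sub_apply, ev_apply, pi_apply, pt_set, mem_Iic, mem_Iio]
  rcases lt_trichotomy β γ with h | h | h
  · simp [h, h.le, h.ne]
  · simp [h]
  · simp [h.not_ge, h.not_gt, h.ne']

theorem psi_U (γ : Ω) (hγ : (Iio γ).Infinite) (G : Finset Ω) : R.psi γ (R.U G) = 0 := by
  classical
  simp only [psi, sub_apply, ev_apply, U_apply, pt_set]
  have : Init G (Iic γ) ↔ Init G (Iio γ) := by
    constructor
    · intro h
      have hγG : γ ∉ G := by
        intro hγG
        apply hγ
        apply G.finite_toSet.subset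
        intro ξ hξ
        exact h.2 ξ γ (mem_Iic.2 (le_of_lt hξ)) hγG (le_of_lt hξ)
      refine ⟨fun ξ hξ => ?_, fun ξ b hξ hb hξb => h.2 ξ b (mem_Iic.2 (le_of_lt hξ)) hb hξb⟩
      refine lt_of_le_of_ne (h.1 ξ hξ) ?_
      rintro rfl
      exact hγG hξ
    · intro h
      refine ⟨fun ξ hξ => mem_Iic.2 (le_of_lt (h.1 ξ hξ)), fun ξ b _ hb hξb => ?_⟩
      exact h.2 ξ b (lt_of_le_of_lt hξb (h.1 b hb)) hb hξb
  simp only [this]
  simp

open Classical in
theorem phi_U (G : Finset Ω) (h : R.InK (G : Set Ω)) (G' : Finset Ω) :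
    R.phi G h (R.U G') = if G' = G then 1 else 0 := by
  unfold phi
  by_cases hne : G.Nonempty
  · rw [dif_pos hne]
    set m := G.max' hne with hm
    have hmG : m ∈ G := G.max'_mem hne
    have hle : ∀ c ∈ G, c ≤ m := fun c hc => G.le_max' c hc
    have hpsi : (if (Iio m).Infinite then R.psi m else 0) (R.U G') = 0 := by
      split_ifs with hinf
      · exact psi_U m hinf G'
      · rfl
    rw [sub_apply, hpsi, sub_zero]
    simp only [sub_apply, ev_apply, U_apply, pt_set]
    by_cases hG' : Init G' ((G.erase m : Finset Ω) : Set Ω)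
    · have h1 : Init G' (G : Set Ω) := by
        refine ⟨fun ξ hξ => Finset.mem_of_mem_erase (hG'.1 ξ hξ), fun ξ b hξ hb hξb => ?_⟩
        have hbe : b ∈ G.erase m := hG'.1 b hb
        have hbm : b < m := lt_of_le_of_ne (hle b (Finset.mem_of_mem_erase hbe))
          (Finset.ne_of_mem_erase hbe)
        refine hG'.2 ξ b ?_ hb hξb
        exact Finset.mem_erase.2 ⟨(lt_of_le_of_lt hξb hbm).ne, hξ⟩
      have h2 : G' ≠ G := by
        rintro rfl
        have := hG'.1 m hmG
        simp at this
      rw [if_pos h1, if_pos hG', if_neg h2]; norm_num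
    · rw [if_neg hG', sub_zero]
      by_cases hEq : G' = G
      · have h1 : Init G' (G : Set Ω) := by
          rw [hEq]
          exact ⟨fun ξ hξ => hξ, fun ξ b hξ _ _ => hξ⟩
        rw [if_pos h1, if_pos hEq]
      · rw [if_neg hEq, if_neg]
        intro hI
        by_cases hmG' : m ∈ G'
        · apply hEq
          apply Finset.Subset.antisymm
          · intro ξ hξ
            exact hI.1 ξ hξ
          · intro ξ hξ
            exact hI.2 ξ m hξ hmG' (hle ξ hξ)
        · apply hG'
          refine ⟨fun ξ hξ => ?_, fun ξ b hξ hb hξb => ?_⟩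
          · refine Finset.mem_erase.2 ⟨?_, hI.1 ξ hξ⟩
            rintro rfl
            exact hmG' hξ
          · exact hI.2 ξ b (Finset.mem_of_mem_erase hξ) hb hξb
  · rw [dif_neg hne]
    have hG0 : G = ∅ := Finset.not_nonempty_iff_eq_empty.1 hne
    subst hG0
    simp only [ev_apply, U_apply, pt_set]
    by_cases hG' : G' = ∅
    · subst hG'
      have : Init ∅ (((∅ : Finset Ω)) : Set Ω) := ⟨by simp, by simp⟩
      rw [if_pos this, if_pos rfl]
    · rw [if_neg hG', if_neg]
      intro hI
      obtain ⟨ξ, hξ⟩ := Finset.nonempty_iff_ne_empty.2 hG'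
      have := hI.1 ξ hξ
      simp at this

theorem phi_pi (G : Finset Ω) (h : R.InK (G : Set Ω)) (β : Ω) (hβ : (Iio β).Infinite) :
    R.phi G h (R.pi β) = 0 := by
  classical
  unfold phi
  by_cases hne : G.Nonempty
  · rw [dif_pos hne]
    set m := G.max' hne with hm
    have hmG : m ∈ G := G.max'_mem hne
    rw [sub_apply]
    have hpsi : (if (Iio m).Infinite then R.psi m else 0) (R.pi β) = if β = m then 1 else 0 := by
      split_ifs with hinf h2 h2
      · rw [psi_pi, if_pos h2]
      · rw [psi_pi, if_neg h2]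
      · subst h2; exact absurd hβ hinf
      · rfl
    rw [hpsi]
    simp only [sub_apply, ev_apply, pi_apply, pt_set]
    rw [← hm]
    by_cases h1 : β = m
    · subst h1
      simp [hmG]
    · by_cases h2 : β ∈ G
      · simp [h1, h2]
      · simp [h1, h2]
  · rw [dif_neg hne]
    have hG0 : G = ∅ := Finset.not_nonempty_iff_eq_empty.1 hne
    subst hG0
    simp [pi_apply]

theorem biorth_eq (i : R.Idx) : R.fnl i (R.vec i) = 1 := by
  classical
  rcases i with G | γ
  · simp only [fnl, vec, phi_U]; simp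
  · simp only [fnl, vec, psi_pi]; simp

theorem biorth_ne (i j : R.Idx) (hij : i ≠ j) : R.fnl i (R.vec j) = 0 := by
  classical
  rcases i with G | γ <;> rcases j with G' | γ'
  · simp only [fnl, vec, phi_U]
    rw [if_neg]
    intro h
    exact hij (congrArg Sum.inl (Subtype.ext h.symm))
  · exact phi_pi G.1 G.2 γ'.1 γ'.2
  · exact psi_U γ.1 γ.2 G'.1
  · simp only [fnl, vec, psi_pi]
    rw [if_neg]
    intro h
    exact hij (congrArg Sum.inr (Subtype.ext h.symm))

/-- Evaluations at the finite points are in the span of the functionals. -/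
theorem ev_mem (G : Finset Ω) (h : R.InK (G : Set Ω)) :
    ev (R.pt G h) ∈ Submodule.span ℝ (range R.fnl) := by
  classical
  induction hn : G.card using Nat.strong_induction_on generalizing G with
  | _ n ih =>
    have hmem : R.phi G h ∈ Submodule.span ℝ (range R.fnl) :=
      Submodule.subset_span ⟨Sum.inl ⟨G, h⟩, rfl⟩
    by_cases hne : G.Nonempty
    · have hcard : (G.erase (G.max' hne)).card < n := by
        rw [← hn]
        exact Finset.card_erase_lt_of_mem (G.max'_mem hne)
      have h1 := ih _ hcard (G.erase (G.max' hne)) (inK_erase h hne) rfl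
      have h2 : (if (Iio (G.max' hne)).Infinite then R.psi (G.max' hne) else 0) ∈
          Submodule.span ℝ (range R.fnl) := by
        split_ifs with hinf
        · exact Submodule.subset_span ⟨Sum.inr ⟨G.max' hne, hinf⟩, rfl⟩
        · exact Submodule.zero_mem _
      have h3 : ev (R.pt G h) = R.phi G h +
          ev (R.pt ((G.erase (G.max' hne) : Finset Ω) : Set Ω) (inK_erase h hne)) +
          (if (Iio (G.max' hne)).Infinite then R.psi (G.max' hne) else 0) := by
        unfold phi
        rw [dif_pos hne]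
        abel
      rw [h3]
      exact Submodule.add_mem _ (Submodule.add_mem _ hmem h1) h2
    · have h3 : ev (R.pt G h) = R.phi G h := by
        unfold phi
        rw [dif_neg hne]
      rw [h3]
      exact hmem

/-- The finite points are dense in `K`. -/
theorem exists_finite_mem {V : Set R.K} (hV : IsOpen V) {x : R.K} (hx : x ∈ V) :
    ∃ (G : Finset Ω) (h : R.InK (G : Set Ω)), R.pt G h ∈ V := by
  classical
  obtain ⟨S, hS⟩ := exists_finset_of_isOpen hV hx
  let T : Finset Ω := S.filter (fun ξ => ξ ∈ x.set)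
  rcases T.eq_empty_or_nonempty with hT | hT
  · refine ⟨∅, inK_empty, hS _ fun ξ hξ => ?_⟩
    rw [pt_set]
    constructor
    · intro h; simp at h
    · intro h
      have : ξ ∈ T := Finset.mem_filter.2 ⟨hξ, h⟩
      rw [hT] at this
      simp at this
  · set b := T.max' hT with hb
    have hbT : b ∈ T := T.max'_mem hT
    have hbx : b ∈ x.set := (Finset.mem_filter.1 hbT).2
    have hle : ∀ c ∈ T, c ≤ b := fun c hc => T.le_max' c hc
    rcases trace x.inK hbx with ⟨n, hn⟩ | hall
    · refine ⟨R.F b n, inK_F b n, hS _ fun ξ hξ => ?_⟩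
      rw [pt_set, Finset.mem_coe, hn ξ]
      constructor
      · intro h; exact h.1
      · intro h; exact ⟨h, hle ξ (Finset.mem_filter.2 ⟨hξ, h⟩)⟩
    · have hex : ∃ N, T ⊆ R.F b N := by
        have h1 : ∀ ξ : Ω, ∃ n, ξ ∈ T → ξ ∈ R.F b n := by
          intro ξ
          by_cases h : ξ ∈ T
          · obtain ⟨n, hn⟩ := R.exhaust (hle ξ h)
            exact ⟨n, fun _ => hn⟩
          · exact ⟨0, fun h' => absurd h' h⟩
        choose N hN using h1
        refine ⟨T.sup N, fun ξ hξ => ?_⟩
        exact R.mono b (Finset.le_sup (f := N) hξ) (hN ξ hξ)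
      obtain ⟨N, hN⟩ := hex
      refine ⟨R.F b N, inK_F b N, hS _ fun ξ hξ => ?_⟩
      rw [pt_set, Finset.mem_coe]
      constructor
      · intro h; exact hall ξ (R.le_of_mem h)
      · intro h; exact hN (Finset.mem_filter.2 ⟨hξ, h⟩)

instance : Nonempty R.K := ⟨R.pt ((∅ : Finset Ω) : Set Ω) inK_empty⟩

theorem norming (y : C(R.K, ℝ)) :
    ∃ g ∈ Submodule.span ℝ (range R.fnl), ‖g‖ ≤ 1 ∧ (1 / 2 : ℝ) * ‖y‖ ≤ |g y| := by
  by_cases hy : y = 0
  · refine ⟨0, Submodule.zero_mem _, ?_, ?_⟩
    · refine ContinuousLinearMap.opNorm_le_bound _ zero_le_one fun f => ?_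
      rw [zero_apply, norm_zero, one_mul]; exact norm_nonneg _
    · rw [hy, norm_zero, mul_zero]; exact abs_nonneg _
  · have hpos : 0 < ‖y‖ := norm_pos_iff.2 hy
    have hlt : (1 / 2 : ℝ) * ‖y‖ < ‖y‖ := by linarith
    have hex : ∃ x : R.K, (1 / 2 : ℝ) * ‖y‖ < ‖y x‖ := by
      by_contra hcon
      push Not at hcon
      have := (ContinuousMap.norm_le y (by positivity)).2 hcon
      linarith
    obtain ⟨x, hx⟩ := hex
    have hopen : IsOpen {z : R.K | (1 / 2 : ℝ) * ‖y‖ < ‖y z‖} :=
      isOpen_lt continuous_const (y.continuous.norm)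
    obtain ⟨G, h, hG⟩ := exists_finite_mem hopen (x := x) hx
    refine ⟨ev (R.pt G h), ev_mem G h, norm_ev_le _, ?_⟩
    rw [ev_apply]
    exact le_of_lt hG

theorem total (y : C(R.K, ℝ)) (hy : ∀ i, R.fnl i y = 0) : y = 0 := by
  obtain ⟨g, hg, -, hle⟩ := norming y
  have hgy : g y = 0 := by
    clear hle
    induction hg using Submodule.span_induction with
    | mem f hf => obtain ⟨i, rfl⟩ := hf; exact hy i
    | zero => rfl
    | add f g _ _ h1 h2 => rw [add_apply, h1, h2, add_zero]
    | smul a f _ h => rw [smul_apply, h, smul_zero]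
  rw [hgy, abs_zero] at hle
  have : ‖y‖ ≤ 0 := by linarith
  exact norm_le_zero_iff.1 this

end RhoSystem

end Pool.Agent.Godefroy
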