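import Mathlib

set_option autoImplicit false

namespace Pool.Agent.Godefroy

open Set

variable {Ω : Type} [LinearOrder Ω]

/-- The properties required of the sequence `G` of finite sets attached to the point `a`,
given the sequences attached to the points below `a`. -/
def Good (F : Ω → ℕ → Finset Ω) (a : Ω) (G : ℕ → Finset Ω) : Prop :=
  (∀ n, a ∈ G n) ∧ (∀ n, ∀ x ∈ G n, x ≤ a) ∧ (∀ n, G n ⊆ G (n + 1)) ∧
  (∀ x, x ≤ a → ∃ n, x ∈ G n) ∧
  (∀ n, ∀ b ∈ G n, b < a → ∀ x, x ∈ F b n ↔ (x ∈ G n ∧ x ≤ b)) ∧
  (∀ n, (G n).card ≤ n + 1) ∧ (∀ k, ∃ N, ∀ n ≥ N, (G n).card + k ≤ n)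

theorem exists_cofinal (a : Ω) (hc : (Iio a).Countable) (hne : (Iio a).Nonempty) :
    ∃ s : ℕ → Ω, (∀ k, s k < a) ∧ Monotone s ∧ ∀ b, b < a → ∃ k, b ≤ s k := by
  obtain ⟨e, he⟩ := hc.exists_eq_range hne
  have hlt : ∀ k, e k < a := fun k => by
    have : e k ∈ Iio a := he ▸ mem_range_self k
    exact this
  -- running maximum
  have hne' : ∀ k : ℕ, (Finset.range (k + 1)).Nonempty := fun k => ⟨0, by simp⟩
  let s : ℕ → Ω := fun k => (Finset.range (k + 1)).sup' (hne' k) e
  refine ⟨s, ?_, ?_, ?_⟩
  · intro k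
    exact (Finset.sup'_lt_iff (hne' k)).2 fun i _ => hlt i
  · intro i j hij
    simp only [s]
    apply Finset.sup'_mono
    intro x hx
    simp only [Finset.mem_range] at hx ⊢
    omega
  · intro b hb
    have : b ∈ range e := he ▸ hb
    obtain ⟨k, rfl⟩ := this
    exact ⟨k, Finset.le_sup' e (by simp)⟩

theorem exists_good (F : Ω → ℕ → Finset Ω) (a : Ω) (hc : (Iio a).Countable)
    (hF : ∀ b, b < a → Good F b (F b)) : ∃ G, Good F a G := by
  classical
  rcases (Iio a).eq_empty_or_nonempty with hemp | hne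
  · -- no points below `a`
    have hmin : ∀ x, ¬ x < a := fun x hx => by
      have : x ∈ Iio a := hx
      rw [hemp] at this
      exact this
    refine ⟨fun _ => {a}, ?_, ?_, ?_, ?_, ?_, ?_, ?_⟩
    · simp
    · intro n x hx
      simp only [Finset.mem_singleton] at hx
      exact hx.le
    · intro n; exact le_refl _
    · intro x hx
      refine ⟨0, ?_⟩
      rcases hx.lt_or_eq with h | h
      · exact absurd h (hmin x)
      · simp [h]
    · intro n b _ hb
      exact absurd hb (hmin b)
    · intro n; simp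
    · intro k
      exact ⟨k + 1, fun n hn => by simp; omega⟩
  · obtain ⟨s, hs_lt, hs_mono, hs_cof⟩ := exists_cofinal a hc hne
    have hG := fun k => hF (s k) (hs_lt k)
    -- membership is monotone in `n`
    have hmonF : ∀ b, b < a → ∀ m n, m ≤ n → F b m ⊆ F b n := by
      intro b hb m n hmn
      induction hmn with
      | refl => exact le_refl _
      | step _ ih => exact ih.trans ((hF b hb).2.2.1 _)
    -- the thresholds
    have hN : ∀ k, ∃ N, ∀ n ≥ N, (F (s k) n).card + (k + 1) ≤ n ∧
        (∀ j, j ≤ k → s j ∈ F (s k) n) := by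
      intro k
      obtain ⟨N₁, hN₁⟩ := (hG k).2.2.2.2.2.2 (k + 1)
      have h2 : ∀ j, ∃ n, j ≤ k → s j ∈ F (s k) n := by
        intro j
        by_cases hj : j ≤ k
        · obtain ⟨n, hn⟩ := (hG k).2.2.2.1 (s j) (hs_mono hj)
          exact ⟨n, fun _ => hn⟩
        · exact ⟨0, fun h => absurd h hj⟩
      choose N₂ hN₂ using h2
      refine ⟨max N₁ ((Finset.range (k + 1)).sup N₂), fun n hn => ⟨hN₁ n (le_of_max_le_left hn), ?_⟩⟩
      intro j hj
      apply hmonF (s k) (hs_lt k) (N₂ j) n _ (hN₂ j hj)
      refine le_trans ?_ (le_of_max_le_right hn)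
      exact Finset.le_sup (f := N₂) (by simp; omega)
    choose N hN using hN
    let ν : ℕ → ℕ := fun k => k + ∑ j ∈ Finset.range (k + 1), N j
    have hνN : ∀ k, N k ≤ ν k := by
      intro k
      have : N k ≤ ∑ j ∈ Finset.range (k + 1), N j :=
        Finset.single_le_sum (f := N) (fun _ _ => Nat.zero_le _) (by simp)
      simp only [ν]; omega
    have hνk : ∀ k, k ≤ ν k := fun k => by simp only [ν]; omega
    have hνmono : Monotone ν := by
      intro i j hij
      have : ∑ l ∈ Finset.range (i + 1), N l ≤ ∑ l ∈ Finset.range (j + 1), N l :=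
        Finset.sum_le_sum_of_subset (by intro x; simp; omega)
      simp only [ν]; omega
    have hcard : ∀ k n, ν k ≤ n → (F (s k) n).card + (k + 1) ≤ n :=
      fun k n h => (hN k n ((hνN k).trans h)).1
    have hmem : ∀ k n, ν k ≤ n → ∀ j, j ≤ k → s j ∈ F (s k) n :=
      fun k n h => (hN k n ((hνN k).trans h)).2
    -- nestedness
    have hnest : ∀ k n, ν k ≤ n → ∀ j, j ≤ k → F (s j) n ⊆ F (s k) n := by
      intro k n h j hj
      have hjm := hmem k n h j hj
      rcases (hs_mono hj).lt_or_eq with hlt | heq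
      · intro x hx
        exact (((hG k).2.2.2.2.1 n (s j) hjm hlt x).1 hx).1
      · rw [heq]
    let κ : ℕ → ℕ := fun n => Nat.findGreatest (fun k => ν k ≤ n) n
    have hκ : ∀ n, ν 0 ≤ n → ν (κ n) ≤ n := by
      intro n hn
      exact Nat.findGreatest_spec (P := fun k => ν k ≤ n) (Nat.zero_le n) hn
    have hκge : ∀ n k, ν k ≤ n → k ≤ κ n := by
      intro n k h
      exact Nat.le_findGreatest ((hνk k).trans h) h
    let G : ℕ → Finset Ω := fun n => if ν 0 ≤ n then insert a (F (s (κ n)) n) else {a}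
    have hGpos : ∀ n, ν 0 ≤ n → G n = insert a (F (s (κ n)) n) := fun n h => if_pos h
    have hGneg : ∀ n, ¬ ν 0 ≤ n → G n = {a} := fun n h => if_neg h
    refine ⟨G, ?_, ?_, ?_, ?_, ?_, ?_, ?_⟩
    · intro n
      by_cases h : ν 0 ≤ n
      · rw [hGpos n h]; simp
      · rw [hGneg n h]; simp
    · intro n x hx
      by_cases h : ν 0 ≤ n
      · rw [hGpos n h, Finset.mem_insert] at hx
        rcases hx with rfl | hx
        · exact le_refl _
        · exact ((hG _).2.1 n x hx).trans (hs_lt _).le
      · rw [hGneg n h, Finset.mem_singleton] at hx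
        exact hx.le
    · intro n
      by_cases h : ν 0 ≤ n
      · have h' : ν 0 ≤ n + 1 := h.trans (Nat.le_succ n)
        rw [hGpos n h, hGpos (n + 1) h']
        apply Finset.insert_subset_insert
        have h1 : F (s (κ n)) n ⊆ F (s (κ n)) (n + 1) :=
          hmonF _ (hs_lt _) _ _ (Nat.le_succ n)
        refine h1.trans ?_
        exact hnest (κ (n + 1)) (n + 1) (hκ (n + 1) h') (κ n)
          (hκge (n + 1) (κ n) ((hκ n h).trans (Nat.le_succ n)))
      · rw [hGneg n h]
        intro x hx
        rw [Finset.mem_singleton] at hx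
        subst hx
        by_cases h' : ν 0 ≤ n + 1
        · rw [hGpos _ h']; simp
        · rw [hGneg _ h']; simp
    · intro x hx
      rcases hx.lt_or_eq with hlt | heq
      · obtain ⟨k, hk⟩ := hs_cof x hlt
        obtain ⟨n₀, hn₀⟩ := (hG k).2.2.2.1 x hk
        refine ⟨max n₀ (ν k), ?_⟩
        have h0 : ν 0 ≤ max n₀ (ν k) := (hνmono (Nat.zero_le k)).trans (le_max_right _ _)
        rw [hGpos _ h0, Finset.mem_insert]
        right
        apply hnest (κ (max n₀ (ν k))) (max n₀ (ν k)) (hκ _ h0) k (hκge _ _ (le_max_right _ _))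
        exact hmonF _ (hs_lt _) _ _ (le_max_left _ _) hn₀
      · refine ⟨0, ?_⟩
        subst heq
        by_cases h : ν 0 ≤ 0
        · rw [hGpos 0 h]; simp
        · rw [hGneg 0 h]; simp
    · intro n b hb hba x
      by_cases h : ν 0 ≤ n
      · rw [hGpos n h, Finset.mem_insert] at hb ⊢
        rcases hb with rfl | hb
        · exact absurd hba (lt_irrefl _)
        · have hble : b ≤ s (κ n) := (hG _).2.1 n b hb
          have key : x ∈ F b n ↔ (x ∈ F (s (κ n)) n ∧ x ≤ b) := by
            rcases hble.lt_or_eq with hlt | heq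
            · exact (hG _).2.2.2.2.1 n b hb hlt x
            · rw [heq]
              exact ⟨fun hx => ⟨hx, (hG _).2.1 n x hx⟩, fun hx => hx.1⟩
          rw [key]
          constructor
          · rintro ⟨h1, h2⟩
            exact ⟨Or.inr h1, h2⟩
          · rintro ⟨h1, h2⟩
            refine ⟨?_, h2⟩
            rcases h1 with rfl | h1
            · exact absurd (lt_of_le_of_lt h2 hba) (lt_irrefl _)
            · exact h1
      · rw [hGneg n h, Finset.mem_singleton] at hb
        exact absurd hba (hb ▸ lt_irrefl _)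
    · intro n
      by_cases h : ν 0 ≤ n
      · rw [hGpos n h]
        have h1 := hcard (κ n) n (hκ n h)
        have h2 := Finset.card_insert_le a (F (s (κ n)) n)
        omega
      · rw [hGneg n h]; simp
    · intro k
      refine ⟨ν k, fun n hn => ?_⟩
      have h0 : ν 0 ≤ n := (hνmono (Nat.zero_le k)).trans hn
      rw [hGpos n h0]
      have h1 := hcard (κ n) n (hκ n h0)
      have h2 := Finset.card_insert_le a (F (s (κ n)) n)
      have h3 := hκge n k hn
      omega

/-- Existence of the coherent family of finite sets (Todorcevic's function `ϱ`, in terms of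
its sublevel sets). -/
theorem exists_coherent [WellFoundedLT Ω] (hc : ∀ a : Ω, (Iio a).Countable) :
    ∃ F : Ω → ℕ → Finset Ω, ∀ a, Good F a (F a) := by
  classical
  let step : (a : Ω) → ((b : Ω) → b < a → (ℕ → Finset Ω)) → (ℕ → Finset Ω) :=
    fun a prev =>
      if h : ∃ G, Good (fun b n => if hb : b < a then prev b hb n else ∅) a G
      then Classical.choose h else fun _ => ∅
  let F : Ω → ℕ → Finset Ω := (wellFounded_lt (α := Ω)).fix step
  have hFeq : ∀ a, F a = step a (fun b _ => F b) := fun a =>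
    WellFounded.fix_eq (wellFounded_lt (α := Ω)) step a
  -- `Good` only depends on the values below `a`
  have hcongr : ∀ (F₁ F₂ : Ω → ℕ → Finset Ω) (a : Ω) (G : ℕ → Finset Ω),
      (∀ b, b < a → F₁ b = F₂ b) → Good F₁ a G → Good F₂ a G := by
    intro F₁ F₂ a G h hg
    refine ⟨hg.1, hg.2.1, hg.2.2.1, hg.2.2.2.1, ?_, hg.2.2.2.2.2⟩
    intro n b hb hba x
    rw [← h b hba]
    exact hg.2.2.2.2.1 n b hb hba x
  refine ⟨F, fun a => ?_⟩
  induction a using WellFoundedLT.induction with
  | ind a ih =>
    have hEq : ∀ b, b < a → (fun b n => if hb : b < a then F b n else ∅) b = F b := by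
      intro b hb
      funext n
      simp [hb]
    obtain ⟨G, hG⟩ := exists_good F a (hc a) ih
    have hex : ∃ G, Good (fun b n => if hb : b < a then F b n else ∅) a G :=
      ⟨G, hcongr _ _ a G (fun b hb => (hEq b hb).symm) hG⟩
    have h1 : F a = Classical.choose hex := by
      rw [hFeq a]
      simp only [step]
      rw [dif_pos hex]
    rw [h1]
    exact hcongr _ _ a _ hEq (Classical.choose_spec hex)

end Pool.Agent.Godefroy
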