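import Pool.Agent.Godefroy.Functionals

set_option autoImplicit false

namespace Pool.Agent.Godefroy

open Set

namespace RhoSystem

variable {Ω : Type} [LinearOrder Ω] {R : RhoSystem Ω}

/-- If `G` is an initial segment of `A` in `K` but not a lower set, then `A` is finite, with a
bound depending on `G` only. -/
theorem exists_bound (G : Finset Ω) (hG : ¬ IsLowerSet (G : Set Ω)) :
    ∃ m : ℕ, ∀ A : Set Ω, R.InK A → Init G A → ∀ T : Finset Ω, (T : Set Ω) ⊆ A → T.card ≤ m := by
  classical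
  have hex : ∃ β η, η ≤ β ∧ β ∈ G ∧ η ∉ G := by
    by_contra hcon
    push Not at hcon
    exact hG fun a b hab ha => hcon a b hab ha
  obtain ⟨β₀, η, hηβ, hβG, hηG⟩ := hex
  obtain ⟨m₀, hm₀⟩ := R.exhaust hηβ
  refine ⟨m₀, fun A hA hI T hT => ?_⟩
  have hβA : β₀ ∈ A := hI.1 β₀ hβG
  have hηA : η ∉ A := fun h => hηG (hI.2 η β₀ h hβG hηβ)
  let T' : Finset Ω := insert β₀ T
  have hT'ne : T'.Nonempty := ⟨β₀, Finset.mem_insert_self _ _⟩
  set β := T'.max' hT'ne with hβ
  have hβT' : β ∈ T' := T'.max'_mem hT'ne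
  have hle : ∀ c ∈ T', c ≤ β := fun c hc => T'.le_max' c hc
  have hβA' : β ∈ A := by
    rcases Finset.mem_insert.1 hβT' with h | h
    · rw [h]; exact hβA
    · exact hT h
  have hβ₀β : β₀ ≤ β := hle β₀ (Finset.mem_insert_self _ _)
  rcases trace hA hβA' with ⟨k, hk⟩ | hall
  · have hβ₀F : β₀ ∈ R.F β k := (hk β₀).2 ⟨hβA, hβ₀β⟩
    have hηF : η ∉ R.F β k := fun h => hηA ((hk η).1 h).1
    have hηF₀ : η ∉ R.F β₀ k := fun h => hηF ((R.coh hβ₀F η).1 h).1
    have hkm : k < m₀ := by
      by_contra hge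
      exact hηF₀ (R.mono β₀ (by omega) hm₀)
    have hsub : T ⊆ R.F β k := by
      intro ξ hξ
      exact (hk ξ).2 ⟨hT hξ, hle ξ (Finset.mem_insert_of_mem hξ)⟩
    calc T.card ≤ (R.F β k).card := Finset.card_le_card hsub
      _ ≤ k + 1 := R.card_le β k
      _ ≤ m₀ := hkm
  · exact absurd (hall η (hηβ.trans hβ₀β)) hηA

theorem finite_of_init (G : Finset Ω) (hG : ¬ IsLowerSet (G : Set Ω)) {A : Set Ω}
    (hA : R.InK A) (hI : Init G A) : A.Finite := by
  obtain ⟨m, hm⟩ := exists_bound (R := R) G hG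
  by_contra hinf
  obtain ⟨T, hTA, hTc⟩ := Set.Infinite.exists_subset_card_eq hinf (m + 1)
  have := hm A hA hI T hTA
  omega

theorem lower_of_infinite {A : Set Ω} (hA : R.InK A) (hinf : A.Infinite) : IsLowerSet A := by
  by_contra hcon
  have hex : ∃ β η, η ≤ β ∧ β ∈ A ∧ η ∉ A := by
    by_contra hcon'
    push Not at hcon'
    exact hcon fun a b hab ha => hcon' a b hab ha
  obtain ⟨β, η, hηβ, hβA, hηA⟩ := hex
  rcases trace hA hβA with ⟨k, hk⟩ | hall
  · apply hinf
    refine finite_of_init (R.F β k) ?_ hA ?_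
    · intro hlow
      exact hηA ((hk η).1 (hlow hηβ ((hk β).2 ⟨hβA, le_rfl⟩))).1
    · refine (init_F_iff β k A).2 ⟨hβA, ?_⟩
      ext ξ
      exact hk ξ
  · exact hηA (hall η hηβ)

theorem init_trans {G H : Finset Ω} {A : Set Ω} (h1 : Init G (H : Set Ω)) (h2 : Init H A) :
    Init G A :=
  ⟨fun ξ hξ => h2.1 ξ (h1.1 ξ hξ), fun ξ b hξ hb hξb =>
    h1.2 ξ b (h2.2 ξ b hξ (h1.1 b hb) hξb) hb hξb⟩

theorem isOpen_init (H : Finset Ω) : IsOpen {z : R.K | Init H z.set} := by
  classical
  have : {z : R.K | Init H z.set} = {z : R.K | R.U H z ≠ 0} := by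
    ext z
    simp only [mem_ofPred_eq, U_apply]
    by_cases h : Init H z.set <;> simp [h]
  rw [this]
  exact isOpen_ne_fun (R.U H).continuous continuous_const

theorem scattered [WellFoundedLT Ω] (s : Set R.K) (hs : s.Nonempty) :
    ∃ x ∈ s, ∃ V : Set R.K, IsOpen V ∧ V ∩ s = {x} := by
  classical
  by_cases hcase : ∃ x ∈ s, x.set.Finite ∧ ¬ IsLowerSet x.set
  · obtain ⟨x, hxs, hxfin, hxlow⟩ := hcase
    let G : Finset Ω := hxfin.toFinset
    have hGx : (G : Set Ω) = x.set := hxfin.coe_toFinset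
    have hGlow : ¬ IsLowerSet (G : Set Ω) := by rw [hGx]; exact hxlow
    obtain ⟨m, hm⟩ := exists_bound (R := R) G hGlow
    let P : ℕ → Prop := fun n => ∃ y ∈ s, Init G y.set ∧ y.set.ncard = n
    have hfin : ∀ y : R.K, Init G y.set → y.set.Finite := fun y hy =>
      finite_of_init G hGlow y.inK hy
    have hbound : ∀ y : R.K, Init G y.set → y.set.ncard ≤ m := by
      intro y hy
      have h1 := hm y.set y.inK hy (hfin y hy).toFinset (by simp)
      rwa [ncard_eq_toFinset_card _ (hfin y hy)]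
    have hGG : Init G x.set := by
      rw [← hGx]
      exact ⟨fun ξ hξ => hξ, fun ξ b hξ _ _ => hξ⟩
    have hPx : P x.set.ncard := ⟨x, hxs, hGG, rfl⟩
    have hPn := Nat.findGreatest_spec (P := P) (hbound x hGG) hPx
    obtain ⟨y, hys, hyI, hyn⟩ := hPn
    have hmax : ∀ z ∈ s, Init G z.set → z.set.ncard ≤ y.set.ncard := by
      intro z hz hzI
      rw [hyn]
      exact Nat.le_findGreatest (hbound z hzI) ⟨z, hz, hzI, rfl⟩
    let H : Finset Ω := (hfin y hyI).toFinset
    have hHy : (H : Set Ω) = y.set := (hfin y hyI).coe_toFinset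
    have hHH : Init H y.set := by
      rw [← hHy]
      exact ⟨fun ξ hξ => hξ, fun ξ b hξ _ _ => hξ⟩
    refine ⟨y, hys, {z | Init H z.set}, isOpen_init H, ?_⟩
    ext z
    simp only [mem_inter_iff, mem_ofPred_eq, mem_singleton_iff]
    constructor
    · rintro ⟨hzI, hzs⟩
      have hGz : Init G z.set := init_trans (by rw [hHy]; exact hyI) hzI
      have hsub : y.set ⊆ z.set := by
        rw [← hHy]
        exact fun ξ hξ => hzI.1 ξ hξ
      have := Set.eq_of_subset_of_ncard_le hsub (hmax z hzs hGz) (hfin z hGz)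
      exact (K.ext_set this).symm
    · rintro rfl
      exact ⟨hHH, hys⟩
  · push Not at hcase
    have hlow : ∀ x ∈ s, IsLowerSet x.set := by
      intro x hx
      by_cases hfin : x.set.Finite
      · exact hcase x hx hfin
      · exact lower_of_infinite x.inK hfin
    by_cases huniv : ∀ x ∈ s, x.set = univ
    · obtain ⟨x, hx⟩ := hs
      refine ⟨x, hx, univ, isOpen_univ, ?_⟩
      rw [univ_inter]
      ext z
      simp only [mem_singleton_iff]
      constructor
      · intro hz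
        exact K.ext_set ((huniv z hz).trans (huniv x hx).symm)
      · rintro rfl
        exact hx
    · push Not at huniv
      obtain ⟨x₁, hx₁, hne⟩ := huniv
      let D : Set Ω := {γ | ∃ x ∈ s, γ ∉ x.set}
      have hD : D.Nonempty := by
        obtain ⟨γ, hγ⟩ := (Set.ne_univ_iff_exists_notMem _).1 hne
        exact ⟨γ, x₁, hx₁, hγ⟩
      obtain ⟨γ₀, ⟨x, hxs, hγx⟩, hmin⟩ := WellFounded.has_min (wellFounded_lt (α := Ω)) D hD
      have hmin' : ∀ γ, γ < γ₀ → ∀ y ∈ s, γ ∈ y.set := by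
        intro γ hγ y hy
        by_contra hcon
        exact hmin γ ⟨y, hy, hcon⟩ hγ
      have hset : ∀ y ∈ s, γ₀ ∉ y.set → y.set = Iio γ₀ := by
        intro y hy hγy
        ext ξ
        constructor
        · intro hξ
          by_contra hge
          exact hγy (hlow y hy (not_lt.1 hge) hξ)
        · intro hξ
          exact hmin' ξ hξ y hy
      refine ⟨x, hxs, {z | γ₀ ∉ z.set}, (isClopen_mem γ₀).compl.isOpen, ?_⟩
      ext z
      simp only [mem_inter_iff, mem_ofPred_eq, mem_singleton_iff]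
      constructor
      · rintro ⟨hz, hzs⟩
        exact K.ext_set ((hset z hzs hz).trans (hset x hxs hγx).symm)
      · rintro rfl
        exact ⟨hγx, hxs⟩

end RhoSystem

end Pool.Agent.Godefroy
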