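import Pool.Agent.Godefroy.Rho

set_option autoImplicit false

namespace Pool.Agent.Godefroy

open Set

/-- A coherent system of finite sets on the linear order `Ω`. -/
structure RhoSystem (Ω : Type) [LinearOrder Ω] where
  F : Ω → ℕ → Finset Ω
  good : ∀ a, Good F a (F a)

namespace RhoSystem

variable {Ω : Type} [LinearOrder Ω] (R : RhoSystem Ω)

theorem self_mem (a : Ω) (n : ℕ) : a ∈ R.F a n := (R.good a).1 n

theorem le_of_mem {a x : Ω} {n : ℕ} (h : x ∈ R.F a n) : x ≤ a := (R.good a).2.1 n x h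

theorem mono (a : Ω) {m n : ℕ} (h : m ≤ n) : R.F a m ⊆ R.F a n := by
  induction h with
  | refl => exact le_refl _
  | step _ ih => exact ih.trans ((R.good a).2.2.1 _)

theorem exhaust {a x : Ω} (h : x ≤ a) : ∃ n, x ∈ R.F a n := (R.good a).2.2.2.1 x h

theorem coh {a b : Ω} {n : ℕ} (h : b ∈ R.F a n) (x : Ω) :
    x ∈ R.F b n ↔ (x ∈ R.F a n ∧ x ≤ b) := by
  rcases (R.le_of_mem h).lt_or_eq with hlt | heq
  · exact (R.good a).2.2.2.2.1 n b h hlt x
  · subst heq
    exact ⟨fun hx => ⟨hx, R.le_of_mem hx⟩, fun hx => hx.1⟩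

theorem card_le (a : Ω) (n : ℕ) : (R.F a n).card ≤ n + 1 := (R.good a).2.2.2.2.2.1 n

/-- Membership of a subset of `Ω` in the compact space. -/
def InK (A : Set Ω) : Prop :=
  ∀ b ξ η, b ∈ A → ξ ∈ A → ξ ≤ b → η ≤ b → η ∈ A ∨ ∃ n, ξ ∈ R.F b n ∧ η ∉ R.F b n

/-- The compact space, as a subspace of the Cantor cube `Ω → Bool`. -/
def K : Type := {x : Ω → Bool // R.InK {ξ | x ξ = true}}

instance : TopologicalSpace R.K := inferInstanceAs (TopologicalSpace {x : Ω → Bool // R.InK {ξ | x ξ = true}})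

instance : T2Space R.K := inferInstanceAs (T2Space {x : Ω → Bool // R.InK {ξ | x ξ = true}})

theorem isClosed_inK : IsClosed {x : Ω → Bool | R.InK {ξ | x ξ = true}} := by
  have : {x : Ω → Bool | R.InK {ξ | x ξ = true}} =
      ⋂ b : Ω, ⋂ ξ : Ω, ⋂ η : Ω, {x : Ω → Bool | x b = true → x ξ = true → ξ ≤ b → η ≤ b →
        x η = true ∨ ∃ n, ξ ∈ R.F b n ∧ η ∉ R.F b n} := by
    ext x
    simp only [InK, mem_ofPred_eq, mem_iInter]
  rw [this]
  refine isClosed_iInter fun b => isClosed_iInter fun ξ => isClosed_iInter fun η => ?_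
  by_cases h : (ξ ≤ b ∧ η ≤ b) ∧ ¬ ∃ n, ξ ∈ R.F b n ∧ η ∉ R.F b n
  · have h2 : {x : Ω → Bool | x b = true → x ξ = true → ξ ≤ b → η ≤ b →
        x η = true ∨ ∃ n, ξ ∈ R.F b n ∧ η ∉ R.F b n} =
        {x : Ω → Bool | x b = false} ∪ {x : Ω → Bool | x ξ = false} ∪
          {x : Ω → Bool | x η = true} := by
      ext x
      simp only [mem_ofPred_eq, mem_union, h.1.1, h.1.2, h.2, or_false, true_implies]
      cases x b <;> cases x ξ <;> cases x η <;> simp
    rw [h2]
    refine IsClosed.union (IsClosed.union ?_ ?_) ?_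
    · exact isClosed_eq (continuous_apply b) continuous_const
    · exact isClosed_eq (continuous_apply ξ) continuous_const
    · exact isClosed_eq (continuous_apply η) continuous_const
  · have h2 : {x : Ω → Bool | x b = true → x ξ = true → ξ ≤ b → η ≤ b →
        x η = true ∨ ∃ n, ξ ∈ R.F b n ∧ η ∉ R.F b n} = univ := by
      ext x
      simp only [mem_ofPred_eq, mem_univ, iff_true]
      intro _ _ h3 h4
      right
      by_contra h5
      exact h ⟨⟨h3, h4⟩, h5⟩
    rw [h2]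
    exact isClosed_univ

instance : CompactSpace R.K :=
  isCompact_iff_compactSpace.1 (R.isClosed_inK.isCompact)

variable {R}

/-- The subset of `Ω` coded by a point of `K`. -/
def K.set (x : R.K) : Set Ω := {ξ | x.1 ξ = true}

theorem K.inK (x : R.K) : R.InK x.set := x.2

theorem K.ext_set {x y : R.K} (h : x.set = y.set) : x = y := by
  apply Subtype.ext
  funext ξ
  have h1 : x.1 ξ = true ↔ y.1 ξ = true := by
    have := congrArg (fun A => ξ ∈ A) h
    simpa [K.set] using this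
  exact Bool.eq_iff_iff.2 h1

variable (R) in
/-- The point of `K` given by a subset of `Ω`. -/
noncomputable def pt (A : Set Ω) (h : R.InK A) : R.K := by
  classical
  exact ⟨fun ξ => decide (ξ ∈ A), by simpa using h⟩

@[simp] theorem pt_set (A : Set Ω) (h : R.InK A) : (R.pt A h).set = A := by
  ext ξ
  simp [pt, K.set]

theorem isClopen_mem (ξ : Ω) : IsClopen {x : R.K | ξ ∈ x.set} := by
  have hc : Continuous (fun x : R.K => x.1 ξ) := (continuous_apply ξ).comp continuous_subtype_val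
  have : {x : R.K | ξ ∈ x.set} = (fun x : R.K => x.1 ξ) ⁻¹' {true} := by
    ext x; simp [K.set]
  rw [this]
  exact (isClopen_discrete _).preimage hc

/-- A neighbourhood base: the sets given by finitely many coordinates. -/
theorem exists_finset_of_isOpen {U : Set R.K} (hU : IsOpen U) {x : R.K} (hx : x ∈ U) :
    ∃ S : Finset Ω, ∀ y : R.K, (∀ ξ ∈ S, ξ ∈ y.set ↔ ξ ∈ x.set) → y ∈ U := by
  obtain ⟨V, hV, rfl⟩ := isOpen_induced_iff.1 hU
  have hxV : V ∈ nhds x.1 := hV.mem_nhds hx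
  rw [nhds_pi, Filter.mem_pi] at hxV
  obtain ⟨I, hI, t, ht, hsub⟩ := hxV
  refine ⟨hI.toFinset, fun y hy => hsub ?_⟩
  intro ξ hξ
  have h1 : y.1 ξ = x.1 ξ := by
    have := hy ξ (hI.mem_toFinset.2 hξ)
    exact Bool.eq_iff_iff.2 this
  rw [h1]
  exact mem_of_mem_nhds (ht ξ)

theorem inK_lower {A : Set Ω} (h : IsLowerSet A) : R.InK A :=
  fun _ _ _ hb _ _ hη => Or.inl (h hη hb)

theorem inK_F (b : Ω) (n : ℕ) : R.InK (R.F b n : Set Ω) := by
  intro b' ξ η hb' hξ hξb' _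
  by_cases h : η ∈ R.F b' n
  · left
    exact ((R.coh hb' η).1 h).1
  · right
    exact ⟨n, (R.coh hb' ξ).2 ⟨hξ, hξb'⟩, h⟩

theorem inK_inter_lower {A B : Set Ω} (h : R.InK A) (hB : IsLowerSet B) : R.InK (A ∩ B) := by
  intro b ξ η hb hξ hξb hηb
  rcases h b ξ η hb.1 hξ.1 hξb hηb with h1 | h1
  · exact Or.inl ⟨h1, hB hηb hb.2⟩
  · exact Or.inr h1

/-- The trace of an element of `K` on `[0,b]`, for `b` in that element. -/
theorem trace {A : Set Ω} (h : R.InK A) {b : Ω} (hb : b ∈ A) :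
    (∃ n, ∀ ξ, ξ ∈ R.F b n ↔ (ξ ∈ A ∧ ξ ≤ b)) ∨ (∀ ξ, ξ ≤ b → ξ ∈ A) := by
  classical
  by_cases hall : ∀ ξ, ξ ≤ b → ξ ∈ A
  · exact Or.inr hall
  · left
    push Not at hall
    obtain ⟨η, hηb, hηA⟩ := hall
    obtain ⟨m, hm⟩ := R.exhaust hηb
    have hex : ∃ n, ∀ ξ, ξ ∈ A → ξ ≤ b → ξ ∈ R.F b n := by
      refine ⟨m, fun ξ hξ hξb => ?_⟩
      rcases h b ξ η hb hξ hξb hηb with h1 | ⟨n, h1, h2⟩
      · exact absurd h1 hηA
      · have : n ≤ m := by
          by_contra hlt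
          exact h2 (R.mono b (by omega) hm)
        exact R.mono b this h1
    refine ⟨Nat.find hex, fun ξ => ⟨fun hξ => ?_, fun hξ => Nat.find_spec hex ξ hξ.1 hξ.2⟩⟩
    refine ⟨?_, R.le_of_mem hξ⟩
    by_contra hξA
    have key : ∀ ζ, ζ ∈ A → ζ ≤ b → ∃ n, n < Nat.find hex ∧ ζ ∈ R.F b n := by
      intro ζ hζ hζb
      rcases h b ζ ξ hb hζ hζb (R.le_of_mem hξ) with h1 | ⟨n, h1, h2⟩
      · exact absurd h1 hξA
      · refine ⟨n, ?_, h1⟩
        by_contra hlt
        exact h2 (R.mono b (by omega) hξ)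
    obtain ⟨n₀, hn₀, -⟩ := key b hb le_rfl
    have hlt : Nat.find hex - 1 < Nat.find hex := by omega
    apply Nat.find_min hex hlt
    intro ζ hζ hζb
    obtain ⟨n, hn, hζn⟩ := key ζ hζ hζb
    exact R.mono b (by omega) hζn

end RhoSystem

end Pool.Agent.Godefroy
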