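import Mathlib

set_option autoImplicit false

namespace Pool.Agent.Godefroy

open Set Filter Topology

/-- Kaplansky: the weak topology of a normed space has countable tightness.  Here for a family
of points `e γ` weakly clustering at `z`. -/
theorem exists_countable_of_cluster {Ω : Type} {E : Type} [NormedAddCommGroup E]
    [NormedSpace ℝ E] (e : Ω → E) (z : E)
    (hcl : ∀ (I : Finset (StrongDual ℝ E)) (ε : ℝ), 0 < ε → ∃ γ, ∀ f ∈ I, |f (e γ - z)| < ε) :
    ∃ C : Set Ω, C.Countable ∧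
      ∀ (I : Finset (StrongDual ℝ E)) (ε : ℝ), 0 < ε → ∃ γ ∈ C, ∀ f ∈ I, |f (e γ - z)| < ε := by
  classical
  -- the finite sets
  have hfin : ∀ n m : ℕ, ∃ T : Finset Ω, ∀ φ : Fin n → WeakDual ℝ E,
      (∀ i, ‖WeakDual.toStrongDual (φ i)‖ ≤ 1) → ∃ γ ∈ T, ∀ i, |φ i (e γ - z)| < 1 / ((m : ℝ) + 1) := by
    intro n m
    let B : Set (Fin n → WeakDual ℝ E) :=
      Set.pi univ fun _ => WeakDual.toStrongDual ⁻¹' Metric.closedBall (0 : StrongDual ℝ E) 1
    have hB : IsCompact B := isCompact_univ_pi fun _ => WeakDual.isCompact_closedBall _ _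
    let O : Ω → Set (Fin n → WeakDual ℝ E) := fun γ => {φ | ∀ i, |φ i (e γ - z)| < 1 / ((m : ℝ) + 1)}
    have hO : ∀ γ, IsOpen (O γ) := by
      intro γ
      have : O γ = ⋂ i, {φ : Fin n → WeakDual ℝ E | |φ i (e γ - z)| < 1 / ((m : ℝ) + 1)} := by
        ext φ; simp [O]
      rw [this]
      refine isOpen_iInter_of_finite fun i => ?_
      refine isOpen_lt ?_ continuous_const
      exact ((WeakDual.eval_continuous (e γ - z)).comp (continuous_apply i)).abs
    have hcov : B ⊆ ⋃ γ, O γ := by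
      intro φ hφ
      obtain ⟨γ, hγ⟩ := hcl (Finset.univ.image fun i => WeakDual.toStrongDual (φ i))
        (1 / ((m : ℝ) + 1)) (by positivity)
      refine mem_iUnion.2 ⟨γ, fun i => ?_⟩
      exact hγ _ (Finset.mem_image_of_mem _ (Finset.mem_univ i))
    obtain ⟨T, hT⟩ := hB.elim_finite_subcover O hO hcov
    refine ⟨T, fun φ hφ => ?_⟩
    have hφB : φ ∈ B := by
      intro i _
      simp only [mem_preimage, Metric.mem_closedBall, dist_zero_right]
      exact hφ i
    obtain ⟨γ, hγ⟩ := mem_iUnion.1 (hT hφB)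
    obtain ⟨hγT, hγO⟩ := mem_iUnion.1 hγ
    exact ⟨γ, hγT, hγO⟩
  choose T hT using hfin
  refine ⟨⋃ n, ⋃ m, (T n m : Set Ω), ?_, ?_⟩
  · exact countable_iUnion fun n => countable_iUnion fun m => (T n m).countable_toSet
  · intro I ε hε
    -- a bound on the norms
    obtain ⟨M, hM⟩ : ∃ M : ℝ, ∀ f ∈ I, ‖f‖ ≤ M := by
      refine ⟨∑ f ∈ I, ‖f‖, fun f hf => ?_⟩
      exact Finset.single_le_sum (f := fun f => ‖f‖) (fun _ _ => norm_nonneg _) hf
    set M' := max M 1 with hM'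
    have hM'pos : 0 < M' := lt_of_lt_of_le one_pos (le_max_right _ _)
    obtain ⟨m, hm⟩ := exists_nat_one_div_lt (div_pos hε hM'pos)
    let eq := I.equivFin
    let φ : Fin I.card → WeakDual ℝ E := fun i =>
      StrongDual.toWeakDual ((1 / M') • (eq.symm i : StrongDual ℝ E))
    have hφ : ∀ i, ‖WeakDual.toStrongDual (φ i)‖ ≤ 1 := by
      intro i
      change ‖(1 / M') • (eq.symm i : StrongDual ℝ E)‖ ≤ 1
      rw [norm_smul, Real.norm_of_nonneg (by positivity)]
      have h1 : ‖(eq.symm i : StrongDual ℝ E)‖ ≤ M' :=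
        (hM _ (eq.symm i).2).trans (le_max_left _ _)
      rw [one_div, inv_mul_le_iff₀ hM'pos, mul_one]
      exact h1
    obtain ⟨γ, hγT, hγ⟩ := hT I.card m φ hφ
    refine ⟨γ, mem_iUnion.2 ⟨I.card, mem_iUnion.2 ⟨m, hγT⟩⟩, fun f hf => ?_⟩
    have h2 := hγ (eq ⟨f, hf⟩)
    have h3 : φ (eq ⟨f, hf⟩) (e γ - z) = (1 / M') * f (e γ - z) := by
      change ((1 / M') • (eq.symm (eq ⟨f, hf⟩) : StrongDual ℝ E)) (e γ - z) = _
      rw [Equiv.symm_apply_apply]
      rfl
    rw [h3, abs_mul, abs_of_pos (by positivity : 0 < 1 / M')] at h2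
    have h4 : 1 / M' * |f (e γ - z)| < ε / M' := h2.trans hm
    rw [one_div, inv_mul_eq_div] at h4
    exact (div_lt_div_iff_of_pos_right hM'pos).1 h4

/-- A compact space containing a transfinite sequence `e γ` converging to a point `z` that is not
in the closure of any countable part of the sequence, is not Eberlein compact. -/
theorem not_eberlein {Ω K : Type} [TopologicalSpace K] (e : Ω → K) (z : K)
    (hz : ∀ V : Set K, IsOpen V → z ∈ V → ∃ γ, e γ ∈ V)
    (hC : ∀ C : Set Ω, C.Countable → ∃ V : Set K, IsOpen V ∧ z ∈ V ∧ ∀ γ ∈ C, e γ ∉ V)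
    (E : Type) [NormedAddCommGroup E] [NormedSpace ℝ E] (S : Set (WeakSpace ℝ E))
    (h : K ≃ₜ S) : False := by
  let i : K → E := fun x => (toWeakSpace ℝ E).symm (h x).1
  have hcl : ∀ (I : Finset (StrongDual ℝ E)) (ε : ℝ), 0 < ε →
      ∃ γ, ∀ f ∈ I, |f (i (e γ) - i z)| < ε := by
    intro I ε hε
    have hcont : ∀ f : StrongDual ℝ E, Continuous fun x : K => f (i x) := by
      intro f
      have h1 : Continuous fun w : WeakSpace ℝ E => (topDualPairing ℝ E).flip w f :=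
        WeakBilin.eval_continuous _ f
      exact h1.comp (continuous_subtype_val.comp h.continuous)
    let V : Set K := ⋂ f ∈ I, {x | |f (i x) - f (i z)| < ε}
    have hV : IsOpen V := by
      refine isOpen_biInter_finset fun f _ => ?_
      exact isOpen_lt ((hcont f).sub continuous_const).abs continuous_const
    have hzV : z ∈ V := by
      simp only [V, mem_iInter]
      intro f _
      simpa using hε
    obtain ⟨γ, hγ⟩ := hz V hV hzV
    refine ⟨γ, fun f hf => ?_⟩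
    have h2 := mem_iInter₂.1 hγ f hf
    rw [map_sub]
    exact h2
  obtain ⟨C, hCc, hCcl⟩ := exists_countable_of_cluster (fun γ => i (e γ)) (i z) hcl
  obtain ⟨V, hVo, hzV, hVC⟩ := hC C hCc
  -- transport `V` to the weak topology
  have hVS : IsOpen (h.symm ⁻¹' V) := hVo.preimage h.symm.continuous
  obtain ⟨W, hWo, hWeq⟩ := isOpen_induced_iff.1 hVS
  obtain ⟨P, hPo, hPeq⟩ := isOpen_induced_iff.1 hWo
  have hzW : (h z).1 ∈ W := by
    have h1 : h z ∈ Subtype.val ⁻¹' W := by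
      rw [hWeq]
      simpa using hzV
    exact h1
  rw [← hPeq] at hzW
  have hPn := hPo.mem_nhds hzW
  rw [nhds_pi, Filter.mem_pi] at hPn
  obtain ⟨I, hI, t, ht, hsub⟩ := hPn
  have hε : ∃ ε : ℝ, 0 < ε ∧ ∀ f ∈ I, Metric.ball (f (i z)) ε ⊆ t f := by
    have h1 : ∀ f ∈ I, ∀ᶠ ε : ℝ in 𝓝[>] 0, Metric.ball (f (i z)) ε ⊆ t f := by
      intro f _
      obtain ⟨δ, hδ, hδt⟩ := Metric.mem_nhds_iff.1 (ht f)
      have h2 : ∀ᶠ ε : ℝ in 𝓝[>] 0, ε < δ := by
        apply nhdsWithin_le_nhds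
        exact gt_mem_nhds hδ
      filter_upwards [h2] with ε hε
      exact (Metric.ball_subset_ball hε.le).trans hδt
    have h3 : ∀ᶠ ε : ℝ in 𝓝[>] 0, ∀ f ∈ I, Metric.ball (f (i z)) ε ⊆ t f :=
      (eventually_all_finite hI).2 h1
    have h4 : ∀ᶠ ε : ℝ in 𝓝[>] 0, 0 < ε := self_mem_nhdsWithin
    obtain ⟨ε, h5, h6⟩ := (h4.and h3).exists
    exact ⟨ε, h5, h6⟩
  obtain ⟨ε, hε0, hεI⟩ := hε
  obtain ⟨γ, hγC, hγ⟩ := hCcl hI.toFinset ε hε0
  apply hVC γ hγC
  have h5 : (h (e γ)).1 ∈ W := by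
    rw [← hPeq]
    apply hsub
    intro f hf
    apply hεI f hf
    have h6 := hγ f (hI.mem_toFinset.2 hf)
    rw [map_sub] at h6
    rw [Metric.mem_ball, Real.dist_eq]
    exact h6
  have h7 : h (e γ) ∈ h.symm ⁻¹' V := by
    rw [← hWeq]
    exact h5
  simpa using h7

end Pool.Agent.Godefroy
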